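import Mathlib

set_option autoImplicit false

namespace Pool.Agent.Results.MP_acde3d_al.Recover

/-- the generalized non-coprime graph -/
def graph (G : Type*) [Group G] (H : Subgroup G) : SimpleGraph {x : G // x ≠ 1} where
  Adj a b := a ≠ b ∧ Nat.gcd (orderOf a.1) (orderOf b.1) ≠ 1 ∧ (a.1 ∈ H ∨ b.1 ∈ H)
  symm := ⟨fun _ _ h => ⟨h.1.symm, by rw [Nat.gcd_comm]; exact h.2.1, h.2.2.symm⟩⟩
  loopless := ⟨fun _ h => h.1 rfl⟩

section
variable {G : Type*} [Group G] [Finite G] {H : Subgroup G}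

/-- outside `H` there is never exactly one element whose order meets that of `t ∈ H` -/
lemma not_unique {t v : G} (ht : t ∈ H) (hv : v ∉ H)
    (hg : Nat.gcd (orderOf v) (orderOf t) ≠ 1)
    (hu : ∀ w, w ∉ H → Nat.gcd (orderOf w) (orderOf t) ≠ 1 → w = v) : False := by
  have h1 : v⁻¹ = v := hu _ (by simpa using hv) (by simpa using hg)
  have hv1 : v ≠ 1 := by rintro rfl; exact hv H.one_mem
  have h2 : orderOf v = 2 := orderOf_eq_prime (by rw [sq]; nth_rewrite 1 [← h1]; simp) hv1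
  have h3 : 2 ∣ orderOf t := by
    by_contra h
    rw [h2] at hg
    exact hg ((Nat.Prime.coprime_iff_not_dvd Nat.prime_two).2 h)
  have h0 : orderOf t ≠ 0 := (orderOf_pos t).ne'
  set s := t ^ (orderOf t / 2) with hs
  have hs2 : orderOf s = 2 := by
    rw [hs, orderOf_pow_orderOf_div h0 h3]
  have hsH : s ∈ H := H.pow_mem ht _
  have h4 : s * v * s⁻¹ = v := by
    apply hu
    · intro h
      apply hv
      have := H.mul_mem (H.mul_mem (H.inv_mem hsH) h) hsH
      simpa [mul_assoc] using this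
    · have : orderOf (s * v * s⁻¹) = orderOf v := by
        simpa using (MulAut.conj s).orderOf_eq v
      rwa [this]
  have hc : s * v = v * s := by rw [← mul_inv_eq_iff_eq_mul]; exact h4
  have hsv : s * v ∉ H := fun h => hv ((H.mul_mem_cancel_left hsH).1 h)
  have h5 : orderOf (s * v) = 2 := by
    apply orderOf_eq_prime
    · rw [Commute.mul_pow hc, ← hs2, pow_orderOf_eq_one, hs2, ← h2, pow_orderOf_eq_one, one_mul]
    · intro h; exact hsv (h ▸ H.one_mem)
  have h6 : s * v = v := hu _ hsv (by rw [h5, ← h2]; exact hg)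
  have h7 : s = 1 := by simpa using h6
  rw [h7, orderOf_one] at hs2
  exact absurd hs2 (by norm_num)

end

section
variable {G G' : Type*} [Group G] [Finite G] [Group G'] [Finite G'] {H : Subgroup G}
  {H' : Subgroup G'}

omit [Finite G] in
lemma step1 (φ : graph G H ≃g graph G' H') {a : {x : G // x ≠ 1}} (ha : a.1 ∈ H)
    (hφ : (φ a).1 ∉ H') {b : {x : G // x ≠ 1}} (hb : b.1 ∈ H) (ho : orderOf b.1 = orderOf a.1) :
    b = a := by
  by_contra hne
  have hab : (graph G H).Adj a b := by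
    refine ⟨fun h => hne h.symm, ?_, Or.inl ha⟩
    rw [ho, Nat.gcd_self]
    exact fun h => a.2 (orderOf_eq_one_iff.1 h)
  have h1 := φ.map_adj_iff.2 hab
  have hb' : (φ b).1 ∈ H' := h1.2.2.resolve_left hφ
  apply not_unique hb' hφ h1.2.1
  intro w hw hg
  have hw1 : w ≠ 1 := by rintro rfl; exact hw H'.one_mem
  by_contra hwv
  obtain ⟨x, hx⟩ := φ.surjective ⟨w, hw1⟩
  have h2 : (graph G' H').Adj (φ x) (φ b) := by
    rw [hx]
    exact ⟨fun h => hw (by rw [← h] at hb'; exact hb'), hg, Or.inr hb'⟩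
  have h3 := φ.map_adj_iff.1 h2
  have h4 : (graph G H).Adj x a := by
    refine ⟨fun h => hwv ?_, by rw [← ho]; exact h3.2.1, Or.inr ha⟩
    rw [← h, hx]
  have h5 := φ.map_adj_iff.2 h4
  rw [hx] at h5
  exact h5.2.2.elim hw hφ

omit [Finite G] in
lemma step1' (φ : graph G H ≃g graph G' H') {a : {x : G // x ≠ 1}} (ha : a.1 ∈ H)
    (hφ : (φ a).1 ∉ H') : orderOf a.1 = 2 := by
  have h := step1 φ ha hφ (b := ⟨a.1⁻¹, by simpa using a.2⟩) (H.inv_mem ha) (by simp)
  have h1 : a.1⁻¹ = a.1 := congrArg Subtype.val h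
  exact orderOf_eq_prime (by rw [sq]; nth_rewrite 1 [← h1]; simp) a.2

lemma main (hH' : H' ≠ ⊥) (φ : graph G H ≃g graph G' H') (a : {x : G // x ≠ 1}) (ha : a.1 ∈ H) :
    (φ a).1 ∈ H' := by
  by_contra hφ
  have h2 := step1' φ ha hφ
  by_cases hO : ∀ g : G, g ∈ H
  · obtain ⟨s, hs, hs1⟩ := (Subgroup.ne_bot_iff_exists_ne_one.1 hH').imp
      (p := fun s : H' => s ≠ 1) (q := fun s : H' => s.1 ∈ H' ∧ s.1 ≠ 1)
      (fun s h => ⟨s.2, fun h' => h (Subtype.ext h')⟩)
    have hsv : s.1 * (φ a).1 ∉ H' := fun h => hφ ((H'.mul_mem_cancel_left hs).1 h)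
    obtain ⟨x, hx⟩ := φ.surjective ⟨s.1 * (φ a).1, fun h => hsv (by rw [h]; exact H'.one_mem)⟩
    have h3 := step1' φ (hO x.1) (by rw [hx]; exact hsv)
    have h4 := step1 φ ha hφ (hO x.1) (h3.trans h2.symm)
    rw [h4] at hx
    have := congrArg Subtype.val hx
    exact hs1 (by simpa using this)
  push Not at hO
  obtain ⟨g, hg⟩ := hO
  have key : ∀ x : {x : G // x ≠ 1}, x.1 ∉ H → Nat.gcd (orderOf x.1) (orderOf a.1) ≠ 1 →
      (φ x).1 ∈ H' ∧ orderOf (φ x).1 = 2 := by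
    intro x hx hgc
    have h3 : (graph G H).Adj x a := ⟨fun h => hx (h ▸ ha), hgc, Or.inr ha⟩
    have h4 : (φ x).1 ∈ H' := (φ.map_adj_iff.2 h3).2.2.resolve_right hφ
    exact ⟨h4, step1' φ.symm h4 (by simpa using hx)⟩
  have none : ∀ x : G, x ∉ H → Nat.gcd (orderOf x) (orderOf a.1) = 1 := by
    intro x hx
    by_contra hgc
    have hx1 : x ≠ 1 := by rintro rfl; exact hx H.one_mem
    apply not_unique ha hx hgc
    intro w hw hgw
    have hw1 : w ≠ 1 := by rintro rfl; exact hw H.one_mem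
    obtain ⟨k1, k2⟩ := key ⟨x, hx1⟩ hx hgc
    obtain ⟨k3, k4⟩ := key ⟨w, hw1⟩ hw hgw
    have := step1 φ.symm k1 (by simpa using hx) k3 (k4.trans k2.symm)
    exact congrArg Subtype.val (φ.injective this)
  have hconj : orderOf (g * a.1 * g⁻¹) = orderOf a.1 := by
    simpa using (MulAut.conj g).orderOf_eq a.1
  have hmem : g * a.1 * g⁻¹ ∈ H := by
    by_contra h
    have := none _ h
    rw [hconj, h2] at this
    exact absurd this (by norm_num)
  have h5 := step1 φ ha hφ (b := ⟨g * a.1 * g⁻¹, by simpa using a.2⟩) hmem hconj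
  have h6 : g * a.1 * g⁻¹ = a.1 := congrArg Subtype.val h5
  have hc : Commute g a.1 := by rw [Commute, SemiconjBy, ← mul_inv_eq_iff_eq_mul]; exact h6
  have h7 := none g hg
  have h8 := none (g * a.1) (fun h => hg ((H.mul_mem_cancel_right ha).1 h))
  rw [hc.orderOf_mul_eq_mul_orderOf_of_coprime h7, Nat.gcd_mul_left_left, h2] at h8
  exact absurd h8 (by norm_num)

end

theorem result : ∀ (G G' : Type) [Group G] [Finite G] [Group G'] [Finite G'] (H : Subgroup G)
    (H' : Subgroup G'), H ≠ ⊥ → H' ≠ ⊥ → ∀ φ : graph G H ≃g graph G' H',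
    ∀ a : {x : G // x ≠ 1}, (a.1 ∈ H ↔ (φ a).1 ∈ H') := by
  intro G G' _ _ _ _ H H' hH hH' φ a
  refine ⟨main hH' φ a, fun h => ?_⟩
  simpa using main hH φ.symm (φ a) h

end Pool.Agent.Results.MP_acde3d_al.Recover
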